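import Pool.Agent.P.MP_e794d7_al.Tree

set_option autoImplicit false

namespace Pool.Agent.P.MP_e794d7_al

open MulAction

open scoped RegularWreathProduct

section Quot

variable {G : Type} [Group G]

theorem orb_fin (B : Subgroup G) : Finite (orbitRel.Quotient G (G ⧸ B)) := by
  haveI : Subsingleton (orbitRel.Quotient G (G ⧸ B)) := ⟨fun a b => by
    induction a using Quotient.inductionOn
    induction b using Quotient.inductionOn
    exact Quotient.sound (MulAction.exists_smul_eq G _ _)⟩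
  infer_instance

theorem stab_good {B : Subgroup G} (h : RGood G B) (y : G ⧸ B) : RGood G (stabilizer G y) := by
  induction y using QuotientGroup.induction_on with
  | H a =>
    refine h.conj a (fun g hg => ?_) (fun g hg => ?_)
    · have : ((g * a : G) : G ⧸ B) = a := mem_stabilizer_iff.mp hg
      have := QuotientGroup.eq.mp this.symm
      rwa [← mul_assoc] at this
    · change ((a * g * a⁻¹ * a : G) : G ⧸ B) = a
      rw [inv_mul_cancel_right]
      exact QuotientGroup.mk_mul_of_mem a hg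

/-- the map of coset spaces given by right multiplication -/
def cmap (C B : Subgroup G) (τ : G) (h : ∀ c ∈ C, τ⁻¹ * c * τ ∈ B) : G ⧸ C → G ⧸ B :=
  Quotient.map' (fun g => g * τ) fun a b hab => by
    rw [QuotientGroup.leftRel_apply] at hab ⊢
    have := h _ hab
    rwa [show τ⁻¹ * (a⁻¹ * b) * τ = (a * τ)⁻¹ * (b * τ) by group] at this

theorem cmap_mk (C B : Subgroup G) (τ : G) (h : ∀ c ∈ C, τ⁻¹ * c * τ ∈ B) (g : G) :
    cmap C B τ h (g : G ⧸ C) = ((g * τ : G) : G ⧸ B) := rfl

theorem cmap_smul (C B : Subgroup G) (τ : G) (h : ∀ c ∈ C, τ⁻¹ * c * τ ∈ B) (g : G)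
    (e : G ⧸ C) : cmap C B τ h (g • e) = g • cmap C B τ h e := by
  induction e using QuotientGroup.induction_on with
  | H a =>
    change (((g * a) * τ : G) : G ⧸ B) = ((g * (a * τ) : G) : G ⧸ B)
    rw [mul_assoc]

theorem const_of_gen {M : Type} (u : G → M) (S : Set G) (hS : Subgroup.closure S = ⊤)
    (h : ∀ s ∈ S, ∀ g, u (g * s) = u g) (g : G) : u g = u 1 := by
  have : ∀ s ∈ Subgroup.closure S, ∀ g, u (g * s) = u g := by
    intro s hs
    induction hs using Subgroup.closure_induction with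
    | mem s hs => exact h s hs
    | one => simp
    | mul a b _ _ ha hb => intro g; rw [← mul_assoc, hb, ha]
    | inv a _ ha => intro g; rw [← ha, inv_mul_cancel_right]
  simpa using this g (hS ▸ Subgroup.mem_top g) 1

/-- the coboundary homomorphism into a wreath product -/
def cob {A Q Θ : Type} [Group A] [Group Q] [Group Θ] (θ : A →* Θ) (γ : Θ → Q) :
    A →* Q ≀ᵣ Θ where
  toFun a := ⟨fun x => γ x * (γ ((θ a)⁻¹ * x))⁻¹, θ a⟩
  map_one' := by ext <;> simp
  map_mul' a b := by ext <;> simp [mul_assoc]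

/-- the diagonal homomorphism into a wreath product -/
def diag {A Q Θ : Type} [Group A] [Group Q] [Group Θ] (θ : A →* Θ) (q : A →* Q) :
    A →* Q ≀ᵣ Θ where
  toFun a := ⟨fun _ => q a, θ a⟩
  map_one' := by ext <;> simp
  map_mul' a b := by ext <;> simp

end Quot

/-- `G` is the amalgamated product of `A₁` and `A₂` along `C` -/
structure IsAmal {C A₁ A₂ G : Type} [Group C] [Group A₁] [Group A₂] [Group G]
    (j₁ : C →* A₁) (j₂ : C →* A₂) (i₁ : A₁ →* G) (i₂ : A₂ →* G) : Prop where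
  comm : ∀ c, i₁ (j₁ c) = i₂ (j₂ c)
  gen : Subgroup.closure (Set.range i₁ ∪ Set.range i₂) = ⊤
  up : ∀ (P : Type) [Group P] (L₁ : A₁ →* P) (L₂ : A₂ →* P), (∀ c, L₁ (j₁ c) = L₂ (j₂ c)) →
    ∃ f : G →* P, (∀ a, f (i₁ a) = L₁ a) ∧ ∀ a, f (i₂ a) = L₂ a

section Amal

variable {C A₁ A₂ G : Type} [Group C] [Group A₁] [Group A₂] [Group G]
  {j₁ : C →* A₁} {j₂ : C →* A₂} {i₁ : A₁ →* G} {i₂ : A₂ →* G}

theorem IsAmal.symm (h : IsAmal j₁ j₂ i₁ i₂) : IsAmal j₂ j₁ i₂ i₁ where
  comm c := (h.comm c).symm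
  gen := by rw [Set.union_comm]; exact h.gen
  up P _ L₂ L₁ hL := by
    obtain ⟨f, h₁, h₂⟩ := h.up P L₁ L₂ fun c => (hL c).symm
    exact ⟨f, h₂, h₁⟩

theorem IsAmal.lift (h : IsAmal j₁ j₂ i₁ i₂) {Q Θ : Type} [Group Q] [Group Θ] (θ : G →* Θ)
    (q : A₁ →* Q) (hq : ∀ c, θ (i₁ (j₁ c)) = 1 → q (j₁ c) = 1) :
    ∃ f : G →* Q ≀ᵣ Θ, ∀ a, (f (i₁ a)).left 1 = q a := by
  letI : MulAction C Θ := MulAction.compHom Θ (θ.comp (i₁.comp j₁))
  obtain ⟨γ, -, hγ⟩ := equiv_choice (G := C) (Y := Θ) (fun c (y : Q) => q (j₁ c) * y)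
    (by simp) (fun g h c => by simp [mul_assoc]) ⊤ (fun _ _ => True) (fun _ _ _ _ _ => trivial)
    fun y => ⟨1, trivial, fun g _ hg => by
      have : θ (i₁ (j₁ g)) * y = y := hg
      rw [hq g (by simpa using this), one_mul]⟩
  obtain ⟨f, h₁, -⟩ := h.up (Q ≀ᵣ Θ) (diag (θ.comp i₁) q) (cob (θ.comp i₂) γ) fun c => by
    ext x
    · have h1 : γ (θ (i₁ (j₁ c⁻¹)) * x) = q (j₁ c⁻¹) * γ x := hγ c⁻¹ trivial x
      simp only [map_inv] at h1
      simp [diag, cob, ← h.comm, h1]
    · simp [diag, cob, h.comm]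
  exact ⟨f, fun a => by rw [h₁]; rfl⟩

theorem IsAmal.inj (h : IsAmal j₁ j₂ i₁ i₂) (hi : Function.Injective (i₁.comp j₁)) :
    Function.Injective i₁ := by
  obtain ⟨f, hf⟩ := h.lift (MonoidHom.id G) (MonoidHom.id A₁) fun c hc => by
    rw [(injective_iff_map_eq_one _).mp hi c hc]; simp
  rw [injective_iff_map_eq_one]
  intro a ha
  have := hf a
  rw [ha, map_one] at this
  exact this.symm

theorem IsAmal.full (h : IsAmal j₁ j₂ i₁ i₂) (hf : Full (i₁.comp j₁)) : Full i₁ := by
  intro K hK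
  obtain ⟨N, hN, hle⟩ := hf (K.normalCore.comap j₁) (fi_comap _ _)
  obtain ⟨f, hf⟩ := h.lift (QuotientGroup.mk' N.normalCore) (QuotientGroup.mk' K.normalCore)
    fun c hc => by
      rw [QuotientGroup.mk'_apply, QuotientGroup.eq_one_iff] at hc ⊢
      exact hle (N.normalCore_le hc)
  refine ⟨f.ker, inferInstance, fun a ha => ?_⟩
  have := hf a
  rw [MonoidHom.mem_ker.mp ha] at this
  exact K.normalCore_le ((QuotientGroup.eq_one_iff a).mp this.symm)

theorem IsAmal.good (h : IsAmal j₁ j₂ i₁ i₂) (hi : Function.Injective (i₁.comp j₁))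
    (hf : Full (i₁.comp j₁)) (hC : Good C) (h₁ : Good A₁) (h₂ : Good A₂) : Good G := by
  have e : i₂.comp j₂ = i₁.comp j₁ := MonoidHom.ext fun c => (h.comm c).symm
  have g₁ := h₁.rgood (h.inj hi) (h.full hf)
  have g₂ := h₂.rgood (h.symm.inj (e ▸ hi)) (h.symm.full (e ▸ hf))
  have g₀ := hC.rgood hi hf
  have l₁ : ∀ c ∈ (i₁.comp j₁).range, (1 : G)⁻¹ * c * 1 ∈ i₁.range := by
    rintro _ ⟨c, rfl⟩; simp
  have l₂ : ∀ c ∈ (i₁.comp j₁).range, (1 : G)⁻¹ * c * 1 ∈ i₂.range := by
    rintro _ ⟨c, rfl⟩; simp [h.comm]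
  refine good_of_tree (V := (G ⧸ i₁.range) ⊕ (G ⧸ i₂.range)) (E := G ⧸ (i₁.comp j₁).range)
    (fun e => Sum.inl (cmap _ _ 1 l₁ e)) (fun e => Sum.inr (cmap _ _ 1 l₂ e))
    (fun g e => by rw [cmap_smul]; rfl) (fun g e => by rw [cmap_smul]; rfl) ?_ (orb_fin _) ?_
    (stab_good g₀) (Sum.inl (1 : G)) ?_ ?_
  · refine Finite.of_surjective (fun b : Bool => Quotient.mk (orbitRel G _)
      (cond b (Sum.inl (1 : G)) (Sum.inr (1 : G)))) fun a => ?_
    induction a using Quotient.inductionOn with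
    | h a =>
      rcases a with a | a
      · obtain ⟨g, hg⟩ := MulAction.exists_smul_eq G a ((1 : G) : G ⧸ i₁.range)
        exact ⟨true, Quotient.sound ⟨g, congrArg Sum.inl hg⟩⟩
      · obtain ⟨g, hg⟩ := MulAction.exists_smul_eq G a ((1 : G) : G ⧸ i₂.range)
        exact ⟨false, Quotient.sound ⟨g, congrArg Sum.inr hg⟩⟩
  · rintro (a | a)
    · convert stab_good g₁ a using 1
      ext g
      exact Sum.inl_injective.eq_iff
    · convert stab_good g₂ a using 1
      ext g
      exact Sum.inr_injective.eq_iff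
  · intro M a ha
    have h1 : ∀ g : G, a (Sum.inr g) = a (Sum.inl g) := fun g => by
      simpa [cmap_mk] using ha g
    have h2 := const_of_gen (fun g : G => a (Sum.inl g)) _ h.gen (by
      rintro s (hs | hs) g
      · exact congrArg (fun y => a (Sum.inl y)) (QuotientGroup.mk_mul_of_mem g hs)
      · rw [← h1, ← h1]
        exact congrArg (fun y => a (Sum.inr y)) (QuotientGroup.mk_mul_of_mem g hs))
    rintro (v | v)
    · induction v using QuotientGroup.induction_on with
      | H g => exact h2 g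
    · induction v using QuotientGroup.induction_on with
      | H g => exact (h1 g).trans (h2 g)
  · intro M _ b
    obtain ⟨f, f₁, f₂⟩ := h.up (Multiplicative M ≀ᵣ G) (diag i₁ 1)
      (cob i₂ fun x => Multiplicative.ofAdd (b (x⁻¹ : G))) fun c => by
        ext x
        · have : ((x⁻¹ * i₂ (j₂ c) : G) : G ⧸ (i₁.comp j₁).range) = (x⁻¹ : G) :=
            QuotientGroup.mk_mul_of_mem _ ⟨c, h.comm c⟩
          simp [diag, cob, this]
        · simp [diag, cob, h.comm]
    have hr : ∀ g, (f g).right = g := fun g => by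
      have := MonoidHom.eq_of_eqOn_dense h.gen (f := RegularWreathProduct.rightHom.comp f)
        (g := MonoidHom.id G) (by
          rintro _ (⟨a, rfl⟩ | ⟨a, rfl⟩)
          · simp [f₁, diag]
          · simp [f₂, cob])
      exact DFunLike.congr_fun this g
    let u : G → M := fun g => ((f g).left 1).toAdd
    have u₁ : ∀ g a, u (g * i₁ a) = u g := fun g a => by simp [u, f₁, diag]
    have u₂ : ∀ g a, u (g * i₂ a) + b (g * i₂ a : G) = u g + b g := fun g a => by
      simp [u, f₂, cob, hr]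
      abel
    refine ⟨Sum.elim (Quotient.lift u ?_) (Quotient.lift (fun g => u g + b g) ?_), fun e => ?_⟩
    · intro x y hxy
      obtain ⟨a, ha⟩ := QuotientGroup.leftRel_apply.mp hxy
      rw [← u₁ x a, ha, mul_inv_cancel_left]
    · intro x y hxy
      obtain ⟨a, ha⟩ := QuotientGroup.leftRel_apply.mp hxy
      rw [← u₂ x a, ha, mul_inv_cancel_left]
    · induction e using QuotientGroup.induction_on with
      | H g => simp [cmap_mk]

end Amal

/-- `G` is obtained from `B` by adjoining an element `τ` that centralises `C` -/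
structure IsHNN {C B G : Type} [Group C] [Group B] [Group G] (j : C →* B) (i : B →* G)
    (τ : G) : Prop where
  comm : ∀ c, Commute τ (i (j c))
  gen : Subgroup.closure (Set.range i ∪ {τ}) = ⊤
  up : ∀ (P : Type) [Group P] (L : B →* P) (T : P), (∀ c, Commute T (L (j c))) →
    ∃ f : G →* P, (∀ a, f (i a) = L a) ∧ f τ = T

theorem IsHNN.good {C B G : Type} [Group C] [Group B] [Group G] {j : C →* B} {i : B →* G}
    {τ : G} (h : IsHNN j i τ) (hi : Function.Injective j) (hf : Full j) (hC : Good C)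
    (hB : Good B) : Good G := by
  obtain ⟨r, hr, -⟩ := h.up B (MonoidHom.id B) 1 fun c => Commute.one_left _
  have e : r.comp i = MonoidHom.id B := MonoidHom.ext hr
  have ii : Function.Injective i := Function.LeftInverse.injective hr
  have fi : Full i := Full.of_comp (ψ := r) (e ▸ full_id)
  have g₁ := hB.rgood ii fi
  have g₀ := hC.rgood (φ := i.comp j) (ii.comp hi) (hf.comp fi)
  have l₁ : ∀ c ∈ (i.comp j).range, (1 : G)⁻¹ * c * 1 ∈ i.range := by
    rintro _ ⟨c, rfl⟩; simp
  have l₂ : ∀ c ∈ (i.comp j).range, τ⁻¹ * c * τ ∈ i.range := by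
    rintro _ ⟨c, rfl⟩
    rw [MonoidHom.comp_apply, mul_assoc, ← (h.comm c).eq]
    simp
  refine good_of_tree (V := G ⧸ i.range) (E := G ⧸ (i.comp j).range)
    (cmap _ _ 1 l₁) (cmap _ _ τ l₂) (cmap_smul _ _ _ _) (cmap_smul _ _ _ _) (orb_fin _)
    (orb_fin _) (stab_good g₁) (stab_good g₀) (1 : G) ?_ ?_
  · intro M a ha v
    induction v using QuotientGroup.induction_on with
    | H g =>
      refine const_of_gen (fun g : G => a g) _ h.gen ?_ g
      rintro s (hs | rfl) g
      · exact congrArg a (QuotientGroup.mk_mul_of_mem g hs)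
      · simpa [cmap_mk] using ha g
  · intro M _ b
    obtain ⟨f, f₁, f₂⟩ := h.up (Multiplicative M ≀ᵣ G) (diag i 1)
      ⟨fun x => Multiplicative.ofAdd (b (x⁻¹ : G)), τ⟩ fun c => by
        refine RegularWreathProduct.ext ?_ (h.comm c).eq
        funext x
        have : ((x⁻¹ * i (j c) : G) : G ⧸ (i.comp j).range) = (x⁻¹ : G) :=
          QuotientGroup.mk_mul_of_mem _ ⟨c, rfl⟩
        simp [diag, this]
    have hr : ∀ g, (f g).right = g := fun g => by
      have := MonoidHom.eq_of_eqOn_dense h.gen (f := RegularWreathProduct.rightHom.comp f)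
        (g := MonoidHom.id G) (by
          rintro _ (⟨a, rfl⟩ | rfl)
          · simp [f₁, diag]
          · simp [f₂])
      exact DFunLike.congr_fun this g
    let u : G → M := fun g => ((f g).left 1).toAdd
    have u₁ : ∀ g a, u (g * i a) = u g := fun g a => by simp [u, f₁, diag]
    have u₂ : ∀ g, u (g * τ) = u g + b g := fun g => by simp [u, f₂, hr]
    refine ⟨Quotient.lift u ?_, fun e => ?_⟩
    · intro x y hxy
      obtain ⟨a, ha⟩ := QuotientGroup.leftRel_apply.mp hxy
      rw [← u₁ x a, ha, mul_inv_cancel_left]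
    · induction e using QuotientGroup.induction_on with
      | H g => simp [cmap_mk, u₂]

end Pool.Agent.P.MP_e794d7_al
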