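import Pool.Agent.P.MP_e794d7_al.Amal

set_option autoImplicit false

namespace Pool.Agent.P.MP_e794d7_al

/-- the alternating word of length `k` -/
def alt {G : Type} [Monoid G] (a b : G) (k : ℕ) : G :=
  ((List.range k).map fun i => if Even i then a else b).prod

section Alt

variable {G H : Type} [Monoid G] [Monoid H]

theorem alt_zero (a b : G) : alt a b 0 = 1 := rfl

theorem alt_succ (a b : G) (k : ℕ) : alt a b (k + 1) = alt a b k * if Even k then a else b := by
  simp [alt, List.range_succ]

theorem alt_succ' (a b : G) (k : ℕ) : alt a b (k + 1) = a * alt b a k := by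
  induction k with
  | zero => simp [alt]
  | succ k ih =>
    rw [alt_succ, ih, alt_succ, mul_assoc]
    by_cases h : Even k <;> simp [Nat.even_add_one, h]

theorem map_alt (f : G →* H) (a b : G) (k : ℕ) : f (alt a b k) = alt (f a) (f b) k := by
  induction k with
  | zero => simp [alt_zero]
  | succ k ih => rw [alt_succ, alt_succ, map_mul, ih, apply_ite f]

theorem alt_even (a b : G) (k : ℕ) : alt a b (2 * k) = (a * b) ^ k := by
  induction k with
  | zero => simp [alt_zero]
  | succ k ih => rw [Nat.mul_succ, alt_succ', alt_succ', ih, pow_succ', mul_assoc]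

theorem alt_odd (a b : G) (k : ℕ) : alt a b (2 * k + 1) = (a * b) ^ k * a := by
  rw [alt_succ, alt_even]; simp

theorem alt_odd' (a b : G) (k : ℕ) : alt a b (2 * k + 1) = a * (b * a) ^ k := by
  rw [alt_succ', alt_even]

theorem alt_two (a b : G) : alt a b 2 = a * b := by simpa using alt_even a b 1

end Alt

/-- the relators of an Artin group -/
def rels {ι : Type} (M : ι → ι → ℕ) : Set (FreeGroup ι) :=
  Set.range fun p : ι × ι => alt (FreeGroup.of p.1) (FreeGroup.of p.2) (M p.1 p.2) *
    (alt (FreeGroup.of p.2) (FreeGroup.of p.1) (M p.1 p.2))⁻¹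

/-- the Artin group; the label `0` stands for infinity -/
abbrev Art {ι : Type} (M : ι → ι → ℕ) : Type := PresentedGroup (rels M)

namespace Art

variable {ι κ : Type} {M : ι → ι → ℕ}

/-- the standard generators -/
def gen (M : ι → ι → ℕ) (a : ι) : Art M := PresentedGroup.of a

theorem rel (a b : ι) : alt (gen M a) (gen M b) (M a b) = alt (gen M b) (gen M a) (M a b) := by
  have := PresentedGroup.one_of_mem (rels := rels M) ⟨(a, b), rfl⟩
  rw [map_mul, map_inv, map_alt, map_alt, mul_inv_eq_one] at this
  exact this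

/-- homomorphisms out of an Artin group -/
def lift {P : Type} [Group P] (g : ι → P)
    (h : ∀ a b, alt (g a) (g b) (M a b) = alt (g b) (g a) (M a b)) : Art M →* P :=
  PresentedGroup.toGroup (f := g) (by
    rintro _ ⟨p, rfl⟩
    rw [map_mul, map_inv, map_alt, map_alt, mul_inv_eq_one]
    simpa using h p.1 p.2)

@[simp] theorem lift_gen {P : Type} [Group P] (g : ι → P)
    (h : ∀ a b, alt (g a) (g b) (M a b) = alt (g b) (g a) (M a b)) (a : ι) :
    lift g h (gen M a) = g a := PresentedGroup.toGroup.of _

theorem hom_ext {P : Type} [Group P] {f g : Art M →* P} (h : ∀ a, f (gen M a) = g (gen M a)) :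
    f = g := PresentedGroup.ext h

theorem closure_gen : Subgroup.closure (Set.range (gen M)) = ⊤ :=
  PresentedGroup.closure_range_of _

theorem eq_top {S : Subgroup (Art M)} (h : ∀ a, gen M a ∈ S) : S = ⊤ := by
  rw [eq_top_iff, ← closure_gen, Subgroup.closure_le]
  rintro _ ⟨a, rfl⟩
  exact h a

/-- the homomorphism induced by a label preserving map of vertices -/
def map {M' : κ → κ → ℕ} (e : κ → ι) (he : ∀ a b, M' a b = M (e a) (e b)) : Art M' →* Art M :=
  lift (fun a => gen M (e a)) fun a b => by rw [he]; exact rel _ _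

@[simp] theorem map_gen {M' : κ → κ → ℕ} (e : κ → ι) (he : ∀ a b, M' a b = M (e a) (e b))
    (a : κ) : map e he (gen M' a) = gen M (e a) := lift_gen _ _ _

/-- the restriction of the labels to a set of vertices -/
def res (M : ι → ι → ℕ) (S : Set ι) : S → S → ℕ := fun a b => M a b

/-- the inclusion of a parabolic subgroup -/
def inc (M : ι → ι → ℕ) (S : Set ι) : Art (res M S) →* Art M := map Subtype.val fun _ _ => rfl

/-- the inclusion between two parabolic subgroups -/
def inc' (M : ι → ι → ℕ) {S T : Set ι} (h : S ⊆ T) : Art (res M S) →* Art (res M T) :=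
  map (Set.inclusion h) fun _ _ => rfl

theorem inc_inc' {S T : Set ι} (h : S ⊆ T) : (inc M T).comp (inc' M h) = inc M S :=
  hom_ext fun a => by simp [inc, inc']

theorem isAmal (S T : Set ι) (hc : ∀ a, a ∈ S ∨ a ∈ T)
    (hM : ∀ a b, M a b ≠ 0 → (a ∈ S ∧ b ∈ S) ∨ (a ∈ T ∧ b ∈ T)) :
    IsAmal (inc' M (Set.inter_subset_left : S ∩ T ⊆ S))
      (inc' M (Set.inter_subset_right : S ∩ T ⊆ T)) (inc M S) (inc M T) where
  comm c := by
    rw [← MonoidHom.comp_apply, ← MonoidHom.comp_apply, inc_inc', inc_inc']
  gen := eq_top fun a => Subgroup.subset_closure (by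
    rcases hc a with h | h
    · exact Or.inl ⟨gen _ ⟨a, h⟩, by simp [inc]⟩
    · exact Or.inr ⟨gen _ ⟨a, h⟩, by simp [inc]⟩)
  up P _ L₁ L₂ hL := by
    classical
    let g : ι → P := fun a =>
      if h : a ∈ S then L₁ (gen _ ⟨a, h⟩) else L₂ (gen _ ⟨a, (hc a).resolve_left h⟩)
    have g₁ : ∀ a : S, g a = L₁ (gen _ a) := fun a => dif_pos a.2
    have g₂ : ∀ a : T, g a = L₂ (gen _ a) := fun a => by
      by_cases h : a.1 ∈ S
      · have := hL (gen _ ⟨a, h, a.2⟩)
        simp only [inc', map_gen] at this
        exact (dif_pos h).trans this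
      · exact dif_neg h
    refine ⟨lift g fun a b => ?_, fun a => ?_, fun a => ?_⟩
    · by_cases h : M a b = 0
      · rw [h]; rfl
      · rcases hM a b h with ⟨ha, hb⟩ | ⟨ha, hb⟩
        · rw [g₁ ⟨a, ha⟩, g₁ ⟨b, hb⟩, ← map_alt, ← map_alt]
          exact congrArg L₁ (rel (M := res M S) ⟨a, ha⟩ ⟨b, hb⟩)
        · rw [g₂ ⟨a, ha⟩, g₂ ⟨b, hb⟩, ← map_alt, ← map_alt]
          exact congrArg L₂ (rel (M := res M T) ⟨a, ha⟩ ⟨b, hb⟩)
    · rw [← MonoidHom.comp_apply]
      exact DFunLike.congr_fun (hom_ext fun a => by simp [inc, g₁]) a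
    · rw [← MonoidHom.comp_apply]
      exact DFunLike.congr_fun (hom_ext fun a => by simp [inc, g₂]) a

theorem isHNN (v : ι) (hM : ∀ a, a ≠ v → M a v = 2 ∧ M v a = 2) :
    IsHNN (MonoidHom.id _) (inc M {a | a ≠ v}) (gen M v) where
  comm c := by
    have : (Subgroup.centralizer {gen M v}).comap (inc M {a | a ≠ v}) = ⊤ := eq_top fun a => by
      rw [Subgroup.mem_comap, Subgroup.mem_centralizer_singleton_iff]
      have := rel (M := M) a v
      rw [(hM a a.2).1, alt_two, alt_two] at this
      simpa [inc] using this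
    have h : c ∈ (Subgroup.centralizer {gen M v}).comap (inc M {a | a ≠ v}) :=
      this ▸ Subgroup.mem_top c
    exact (Subgroup.mem_centralizer_singleton_iff.mp h).symm
  gen := eq_top fun a => Subgroup.subset_closure (by
    by_cases h : a = v
    · exact Or.inr (by rw [h]; rfl)
    · exact Or.inl ⟨gen _ ⟨a, h⟩, by simp [inc]⟩)
  up P _ L T hL := by
    classical
    let g : ι → P := fun a => if h : a = v then T else L (gen _ ⟨a, h⟩)
    have g₁ : ∀ a : {a | a ≠ v}, g a = L (gen _ a) := fun a => dif_neg a.2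
    have g₂ : g v = T := dif_pos rfl
    refine ⟨lift g fun a b => ?_, fun a => ?_, by simp [g₂]⟩
    · by_cases ha : a = v <;> by_cases hb : b = v
      · rw [ha, hb]
      · rw [ha, (hM b hb).2, alt_two, alt_two, g₂, g₁ ⟨b, hb⟩]
        exact (hL _).eq
      · rw [hb, (hM a ha).1, alt_two, alt_two, g₂, g₁ ⟨a, ha⟩]
        exact (hL _).eq.symm
      · rw [g₁ ⟨a, ha⟩, g₁ ⟨b, hb⟩, ← map_alt, ← map_alt]
        exact congrArg L (rel (M := res M {a | a ≠ v}) ⟨a, ha⟩ ⟨b, hb⟩)
    · rw [← MonoidHom.comp_apply]
      exact DFunLike.congr_fun (hom_ext fun a => by simp [inc, g₁]) a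

/-- the length homomorphism -/
def len (M : ι → ι → ℕ) : Art M →* Multiplicative ℤ :=
  lift (fun _ => Multiplicative.ofAdd 1) fun _ _ => rfl

end Art

theorem good_int : Good (Multiplicative ℤ) := by
  have h : IsHNN (MonoidHom.id Unit) (1 : Unit →* Multiplicative ℤ) (Multiplicative.ofAdd 1) :=
    { comm := fun _ => Commute.all _ _
      gen := by
        rw [eq_top_iff]
        intro x _
        have : x = Multiplicative.ofAdd (1 : ℤ) ^ x.toAdd := by simp [← ofAdd_zsmul]
        rw [this]
        refine Subgroup.zpow_mem _ (Subgroup.subset_closure ?_) _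
        exact Or.inr rfl
      up := fun P _ L T _ => ⟨zpowersHom P T, fun a => by
        rw [Subsingleton.elim a 1, map_one, map_one, map_one], by simp⟩ }
  exact h.good Function.injective_id full_id good_of_subsingleton good_of_subsingleton

theorem int_hom {φ : Multiplicative ℤ →* Multiplicative ℤ} (h : φ (Multiplicative.ofAdd 1) ≠ 1) :
    Function.Injective φ ∧ Full φ := by
  set d := (φ (Multiplicative.ofAdd 1)).toAdd with hd
  have hd0 : d ≠ 0 := h
  have h1 : ∀ x, (φ x).toAdd = x.toAdd * d := fun x => by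
    conv_lhs => rw [show x = Multiplicative.ofAdd (1 : ℤ) ^ x.toAdd by simp [← ofAdd_zsmul]]
    rw [map_zpow, toAdd_zpow, smul_eq_mul]
  have hi : Function.Injective φ := fun x y hxy => by
    have := congrArg Multiplicative.toAdd hxy
    rw [h1, h1] at this
    exact Multiplicative.toAdd.injective (mul_right_cancel₀ hd0 this)
  haveI : NeZero d.natAbs := ⟨Int.natAbs_ne_zero.mpr hd0⟩
  haveI : φ.range.FiniteIndex := by
    refine Subgroup.finiteIndex_of_le
      (H := (AddMonoidHom.toMultiplicative (Int.castAddHom (ZMod d.natAbs))).ker) fun x hx => ?_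
    have h2 : ((x.toAdd : ℤ) : ZMod d.natAbs) = 0 := hx
    rw [ZMod.intCast_zmod_eq_zero_iff_dvd, Int.natCast_natAbs, abs_dvd] at h2
    obtain ⟨k, hk⟩ := h2
    exact ⟨Multiplicative.ofAdd k, Multiplicative.toAdd.injective (by rw [h1, hk]; simp [mul_comm])⟩
  exact ⟨hi, full_of_range φ hi⟩

theorem good_dihedral {ι : Type} (M : ι → ι → ℕ) (s t : ι) (hst : s ≠ t)
    (hc : ∀ a, a = s ∨ a = t) (hs : M t s = M s t) (h0 : M s t ≠ 0) : Good (Art M) := by
  classical
  have hl : ∀ {P : Type} [Group P] (S T : P), alt S T (M s t) = alt T S (M s t) →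
      ∃ f : Art M →* P, f (Art.gen M s) = S ∧ f (Art.gen M t) = T := by
    intro P _ S T h
    refine ⟨Art.lift (fun a => if a = s then S else T) fun a b => ?_, by simp, by simp [hst.symm]⟩
    rcases hc a with rfl | rfl <;> rcases hc b with rfl | rfl <;> simp [hst.symm, h, hs]
  have hg : ∀ {S : Subgroup (Art M)}, Art.gen M s ∈ S → Art.gen M t ∈ S → S = ⊤ :=
    fun h1 h2 => Art.eq_top fun a => by rcases hc a with rfl | rfl <;> assumption
  have hz : ∀ {P : Type} [Group P] {f g : Multiplicative ℤ →* P},
      f (Multiplicative.ofAdd 1) = g (Multiplicative.ofAdd 1) → ∀ a, f a = g a :=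
    fun h a => DFunLike.congr_fun (MonoidHom.ext_mint h) a
  have hr := Art.rel (M := M) s t
  set x := Art.gen M s * Art.gen M t with hx
  let o : Multiplicative ℤ := Multiplicative.ofAdd 1
  obtain ⟨k, hk | hk⟩ := Nat.even_or_odd' (M s t)
  · have h : IsHNN (zpowersHom _ (o ^ k)) (zpowersHom _ x) (Art.gen M s) :=
      { comm := fun c => by
          rw [hk, alt_even, alt_even] at hr
          simp only [zpowersHom_apply, o, toAdd_zpow, toAdd_pow, toAdd_ofAdd, smul_eq_mul,
            nsmul_eq_mul, mul_one]
          rw [mul_comm, zpow_mul, zpow_natCast]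
          refine Commute.zpow_right ?_ _
          change Art.gen M s * x ^ k = x ^ k * Art.gen M s
          conv_lhs => rw [hx, hr]
          rw [← alt_odd', alt_odd]
        gen := by
          have h1 : Art.gen M s ∈ Subgroup.closure (Set.range (zpowersHom _ x) ∪ {Art.gen M s}) :=
            Subgroup.subset_closure (Or.inr rfl)
          have h2 : x ∈ Subgroup.closure (Set.range (zpowersHom _ x) ∪ {Art.gen M s}) :=
            Subgroup.subset_closure (Or.inl ⟨o, by simp [o]⟩)
          refine hg h1 ?_
          simpa [hx] using Subgroup.mul_mem _ (Subgroup.inv_mem _ h1) h2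
        up := fun P _ L T hL => by
          have h1 := (hL o).eq
          simp only [zpowersHom_apply, o, toAdd_ofAdd, zpow_one, map_pow] at h1
          obtain ⟨f, f1, f2⟩ := hl T (T⁻¹ * L o) (by
            have h2 := conj_pow (i := k) (a := T⁻¹) (b := L o)
            rw [inv_inv] at h2
            rw [hk, alt_even, alt_even, mul_inv_cancel_left, h2, mul_assoc, ← h1,
              inv_mul_cancel_left])
          refine ⟨f, fun a => hz (f := f.comp (zpowersHom _ x)) ?_ a, f1⟩
          simp [hx, f1, f2, o] }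
    have h2 := int_hom (φ := zpowersHom _ (o ^ k)) (by
      simp only [zpowersHom_apply, o, toAdd_ofAdd, zpow_one]
      intro h
      have := congrArg Multiplicative.toAdd h
      simp at this
      omega)
    exact h.good h2.1 h2.2 good_int good_int
  · set y := x ^ k * Art.gen M s with hy
    have hxy : x ^ (2 * k + 1) = y ^ 2 := by
      rw [hk, alt_odd, alt_odd', ← hx, ← hy] at hr
      rw [sq]
      conv_rhs => rw [hy, mul_assoc, ← hy, hr, ← mul_assoc (Art.gen M s), ← hx]
      rw [← pow_succ', ← pow_add]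
      congr 1
      ring
    have h : IsAmal (zpowersHom _ (o ^ (2 * k + 1))) (zpowersHom _ (o ^ 2)) (zpowersHom _ x)
        (zpowersHom _ y) :=
      { comm := hz (f := (zpowersHom _ x).comp _) (g := (zpowersHom _ y).comp _) (by
          simp only [MonoidHom.comp_apply, zpowersHom_apply, o, toAdd_ofAdd, zpow_one, map_pow]
          exact hxy)
        gen := by
          have h1 : y ∈ Subgroup.closure
              (Set.range (zpowersHom _ x) ∪ Set.range (zpowersHom _ y)) :=
            Subgroup.subset_closure (Or.inr ⟨o, by simp [o]⟩)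
          have h2 : x ∈ Subgroup.closure
              (Set.range (zpowersHom _ x) ∪ Set.range (zpowersHom _ y)) :=
            Subgroup.subset_closure (Or.inl ⟨o, by simp [o]⟩)
          have h3 := Subgroup.mul_mem _ (Subgroup.inv_mem _ (Subgroup.pow_mem _ h2 k)) h1
          rw [hy, inv_mul_cancel_left] at h3
          refine hg h3 ?_
          simpa [hx] using Subgroup.mul_mem _ (Subgroup.inv_mem _ h3) h2
        up := fun P _ L₁ L₂ hL => by
          have h1 := hL o
          simp only [zpowersHom_apply, o, toAdd_ofAdd, zpow_one, map_pow] at h1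
          set X := L₁ (Multiplicative.ofAdd 1) with hX
          set Y := L₂ (Multiplicative.ofAdd 1) with hY
          have h2 : (X ^ k)⁻¹ * Y * (Y⁻¹ * X ^ (k + 1)) = X := by group
          obtain ⟨f, f1, f2⟩ := hl ((X ^ k)⁻¹ * Y) (Y⁻¹ * X ^ (k + 1)) (by
            rw [hk, alt_odd, alt_odd', h2, mul_inv_cancel_left, mul_assoc, ← pow_add,
              show k + 1 + k = 2 * k + 1 by ring, h1]
            group)
          have h3 : f x = X := by rw [hx, map_mul, f1, f2, h2]
          refine ⟨f, fun a => hz (f := f.comp (zpowersHom _ x)) ?_ a,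
            fun a => hz (f := f.comp (zpowersHom _ y)) ?_ a⟩
          · simp [h3, hX]
          · simp [hy, h3, f1, hY] }
    have h2 := int_hom (φ := (Art.len M).comp
      ((zpowersHom _ x).comp (zpowersHom _ (o ^ (2 * k + 1))))) (by
      simp only [MonoidHom.comp_apply, zpowersHom_apply, o, toAdd_ofAdd, zpow_one, map_pow, hx,
        map_mul, Art.len, Art.lift_gen]
      intro h
      have := congrArg Multiplicative.toAdd h
      simp at this
      omega)
    exact h.good (Function.Injective.of_comp (f := Art.len M) h2.1) h2.2.of_comp good_int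
      good_int good_int

end Pool.Agent.P.MP_e794d7_al
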