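import Mathlib

set_option autoImplicit false

namespace Pool.Agent.P.MP_e794d7_al

/-- the differential of homogeneous cochains -/
def D {X M : Type} [AddCommGroup M] {n : ℕ} (f : (Fin n → X) → M) : (Fin (n + 1) → X) → M :=
  fun x => ∑ i : Fin (n + 1), (-1 : ℤ) ^ (i : ℕ) • f (i.removeNth x)

section Basic

variable {X M : Type} [AddCommGroup M]

theorem D_sub {n : ℕ} (f g : (Fin n → X) → M) : D (f - g) = D f - D g := by
  funext x
  simp [D, smul_sub, Finset.sum_sub_distrib]

theorem D_cons {n : ℕ} (f : (Fin (n + 1) → X) → M) (a : X) (y : Fin (n + 1) → X) :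
    D f (Fin.cons a y) = f y - D (fun w : Fin n → X => f (Fin.cons a w)) y := by
  unfold D
  rw [Fin.sum_univ_succ, sub_eq_add_neg, ← Finset.sum_neg_distrib]
  congr 1
  · simp [Fin.removeNth_zero]
  · refine Finset.sum_congr rfl fun i _ => ?_
    have : i.succ.removeNth (Fin.cons a y : Fin (n + 2) → X) = Fin.cons a (i.removeNth y) := by
      funext k
      refine Fin.cases ?_ (fun k => ?_) k
      · simp [Fin.removeNth]
      · simp [Fin.removeNth]
    rw [this, Fin.val_succ, pow_succ]
    simp

theorem DD : ∀ {n : ℕ} (f : (Fin n → X) → M), D (D f) = 0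
  | 0, f => by
    funext x
    have h : ∀ y : Fin 1 → X, D f y = f Fin.elim0 := fun y => by
      simp [D, Subsingleton.elim ((0 : Fin 1).removeNth y) Fin.elim0]
    simp [D.eq_1 (D f), Fin.sum_univ_succ, h]
  | n + 1, f => by
    funext x
    rw [← Fin.cons_self_tail x, D_cons]
    have : (fun w : Fin (n + 1) → X => D f (Fin.cons (x 0) w)) =
        f - D (fun w : Fin n → X => f (Fin.cons (x 0) w)) := by
      funext w; rw [D_cons]; rfl
    rw [this, D_sub, DD]
    simp

theorem exact_D {n : ℕ} (z : (Fin (n + 1) → X) → M) (hz : D z = 0) (a : X) :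
    D (fun w : Fin n → X => z (Fin.cons a w)) = z := by
  funext y
  have := D_cons z a y
  rw [hz] at this
  exact (sub_eq_zero.mp this.symm).symm

theorem D_smul {G : Type} [Group G] [MulAction G X] {n : ℕ} (g : G) (f : (Fin n → X) → M)
    (x : Fin (n + 1) → X) : D (fun y => f (g • y)) x = D f (g • x) := rfl

end Basic

/-- the action is free -/
def Free (G X : Type) [Group G] [MulAction G X] : Prop := ∀ (g : G) (x : X), g • x = x → g = 1

/-- classes of positive degree on `B ⊓ N` die on some `B ⊓ N'` -/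
def RGood (G : Type) [Group G] (B : Subgroup G) : Prop :=
  ∀ (X : Type) [MulAction G X], Free G X → Nonempty X →
    ∀ (M : Type) [AddCommGroup M], Finite M → ∀ (n : ℕ) (N : Subgroup G), N.FiniteIndex →
      ∀ z : (Fin (n + 2) → X) → M, D z = 0 → (∀ g ∈ B, g ∈ N → ∀ x, z (g • x) = z x) →
        ∃ N' : Subgroup G, N'.FiniteIndex ∧ ∃ c : (Fin (n + 1) → X) → M,
          D c = z ∧ ∀ g ∈ B, g ∈ N' → ∀ x, c (g • x) = c x

def Good (G : Type) [Group G] : Prop := RGood G ⊤

/-- the profinite topology of the target induces the full profinite topology on the source -/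
def Full {H G : Type} [Group H] [Group G] (φ : H →* G) : Prop :=
  ∀ K : Subgroup H, K.FiniteIndex → ∃ N : Subgroup G, N.FiniteIndex ∧ N.comap φ ≤ K

theorem fi_comap {H G : Type} [Group H] [Group G] (φ : H →* G) (N : Subgroup G)
    [N.FiniteIndex] : (N.comap φ).FiniteIndex := by
  refine ⟨?_⟩
  rw [Subgroup.index_comap]
  exact Subgroup.FiniteIndex.index_ne_zero (H := N.subgroupOf φ.range)

section Transfer

variable {H G K : Type} [Group H] [Group G] [Group K]

theorem Full.comp {φ : H →* G} {ψ : G →* K} (h₁ : Full φ) (h₂ : Full ψ) : Full (ψ.comp φ) := by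
  intro S hS
  obtain ⟨N, hN, h⟩ := h₁ S hS
  obtain ⟨N', hN', h'⟩ := h₂ N hN
  exact ⟨N', hN', fun x hx => h (h' hx)⟩

theorem Full.of_comp {φ : H →* G} {ψ : G →* K} (h : Full (ψ.comp φ)) : Full φ := by
  intro S hS
  obtain ⟨N, hN, h⟩ := h S hS
  exact ⟨N.comap ψ, fi_comap ψ N, fun x hx => h hx⟩

theorem full_id : Full (MonoidHom.id G) := fun S hS => ⟨S, hS, fun _ hx => hx⟩

theorem full_of_range (φ : H →* G) (hi : Function.Injective φ) [φ.range.FiniteIndex] :
    Full φ := by
  intro S hS
  refine ⟨S.map φ, ⟨?_⟩, by rw [Subgroup.comap_map_eq_self_of_injective hi]⟩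
  rw [Subgroup.index_map_of_injective _ hi]
  exact mul_ne_zero hS.1 Subgroup.FiniteIndex.index_ne_zero

theorem Good.rgood {φ : H →* G} (hH : Good H) (hi : Function.Injective φ) (hf : Full φ) :
    RGood G φ.range := by
  intro X _ hX hne M _ hM n N hN z hz hinv
  letI : MulAction H X := MulAction.compHom X φ
  obtain ⟨N', hN', c, hc, hc'⟩ := hH X (fun g x h => hi ((hX (φ g) x h).trans φ.map_one.symm))
    hne M hM n (N.comap φ) (fi_comap φ N) z hz fun g _ hg x => hinv (φ g) ⟨g, rfl⟩ hg x
  obtain ⟨N'', hN'', h⟩ := hf N' hN'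
  refine ⟨N'', hN'', c, hc, ?_⟩
  rintro _ ⟨g, rfl⟩ hg x
  exact hc' g trivial (h hg) x

theorem Good.of_equiv (hH : Good H) (e : H ≃* G) : Good G := by
  have h1 : e.toMonoidHom.range = ⊤ := MonoidHom.range_eq_top.mpr e.surjective
  have := hH.rgood (φ := e.toMonoidHom) e.injective
    (@full_of_range _ _ _ _ _ e.injective (by rw [h1]; infer_instance))
  rwa [h1] at this

theorem RGood.conj {B B' : Subgroup G} (h : RGood G B) (a : G)
    (hB : ∀ g, g ∈ B' → a⁻¹ * g * a ∈ B) (hB' : ∀ g, g ∈ B → a * g * a⁻¹ ∈ B') : RGood G B' := by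
  intro X _ hX hne M _ hM n N hN z hz hinv
  obtain ⟨N', hN', c, hc, hc'⟩ := h X hX hne M hM n N.normalCore inferInstance
    (fun y => z (a • y)) (by funext x; rw [D_smul, hz]; rfl) (fun g hg hg' x => by
      have := hinv _ (hB' g hg) (hg' a) (a • x)
      rwa [smul_smul, inv_mul_cancel_right, mul_smul] at this)
  refine ⟨N'.normalCore, inferInstance, fun y => c (a⁻¹ • y), ?_, fun g hg hg' x => ?_⟩
  · funext x
    rw [D_smul, hc]
    simp
  · have := hc' _ (hB g hg) (by simpa using hg' a⁻¹) (a⁻¹ • x)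
    rwa [smul_smul, mul_inv_cancel_right, mul_smul] at this

theorem good_of_subsingleton [Subsingleton G] : Good G := by
  intro X _ hX ⟨a⟩ M _ hM n N hN z hz hinv
  refine ⟨⊤, inferInstance, _, exact_D z hz a, fun g _ _ x => ?_⟩
  rw [Subsingleton.elim g 1, one_smul]

end Transfer

/-- the inhomogeneous form of goodness -/
theorem Good.inhom {G : Type} [Group G] (hG : Good G) (A : Type) [AddCommGroup A]
    [DistribMulAction G A] (hA : Finite A) (m : ℕ) (f : (Fin (m + 1) → G) → A)
    (hf : ∀ g : Fin (m + 2) → G, g 0 • f (fun i => g i.succ) +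
      ∑ j : Fin (m + 2), ((-1 : ℤ) ^ ((j : ℕ) + 1)) • f (Fin.contractNth j (· * ·) g) = 0) :
    ∃ N : Subgroup G, N.FiniteIndex ∧ ∃ h : (Fin m → N) → A, ∀ g : Fin (m + 1) → N,
      f (fun i => (g i : G)) = (g 0 : G) • h (fun i => g i.succ) +
        ∑ j : Fin (m + 1), ((-1 : ℤ) ^ ((j : ℕ) + 1)) • h (Fin.contractNth j (· * ·) g) := by
  let N0 : Subgroup G := (MulAction.toPermHom G A).ker
  haveI : N0.FiniteIndex := Subgroup.finiteIndex_ker _
  have hN0 : ∀ g ∈ N0, ∀ a : A, g • a = a := fun g hg a => by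
    have := congrArg (fun p : Equiv.Perm A => p a) (MonoidHom.mem_ker.mp hg)
    simpa using this
  let df : ∀ {n : ℕ}, (Fin (n + 1) → G) → Fin n → G := fun x i => (x i.castSucc)⁻¹ * x i.succ
  have hdf : ∀ {n : ℕ} (x : Fin (n + 2) → G) (j : Fin (n + 1)),
      df (j.succ.removeNth x) = Fin.contractNth j (· * ·) (df x) := by
    intro n x j
    funext k
    rw [← Fin.inv_partialProd_mul_eq_contractNth]
    have h1 : ∀ i, x i = x 0 * Fin.partialProd (df x) i := fun i =>
      (congrFun (Fin.partialProd_left_inv x) i).symm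
    simp only [df, Fin.removeNth]
    rw [h1 (j.succ.succAbove k.castSucc), h1 (j.succ.succAbove k.succ)]
    rw [mul_inv_rev, mul_assoc, inv_mul_cancel_left, Fin.succ_succAbove_succ]
  let z : (Fin (m + 2) → G) → A := fun x => x 0 • f (df x)
  obtain ⟨N', hN', c, hc, hc'⟩ := hG G (fun g x h => by simpa using h) ⟨1⟩ A hA m N0
    inferInstance z (by
      funext x
      have := congrArg (fun a => x 0 • a) (hf (df x))
      simp only [smul_add, smul_zero, Finset.smul_sum] at this
      rw [Pi.zero_apply, ← this]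
      unfold D
      rw [Fin.sum_univ_succ]
      congr 1
      · simp only [z, df, smul_smul]
        simp [Fin.removeNth_zero, Fin.tail]
      · refine Finset.sum_congr rfl fun j _ => ?_
        simp only [z, hdf]
        rw [smul_comm]
        simp [Fin.removeNth]) (fun g _ hg x => by
      have : df (g • x) = df x := by funext i; simp [df]
      simp only [z, this]
      rw [Pi.smul_apply, smul_eq_mul, mul_smul, hN0 g hg])
  refine ⟨N' ⊓ N0, inferInstance, fun u => c (Fin.partialProd fun i => (u i : G)), fun g => ?_⟩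
  have h1 := congrFun hc (Fin.partialProd fun i => (g i : G))
  have h2 : df (Fin.partialProd fun i => (g i : G)) = fun i => (g i : G) :=
    funext fun i => Fin.partialProd_right_inv _ i
  simp only [z, h2, Fin.partialProd_zero, one_smul] at h1
  rw [← h1, hN0 _ (g 0).2.2]
  unfold D
  rw [Fin.sum_univ_succ]
  congr 1
  · beta_reduce
    rw [← hc' (g 0) trivial (g 0).2.1 (Fin.partialProd _)]
    simp only [Fin.val_zero, pow_zero, one_smul]
    congr 1
    funext i
    simp only [Fin.removeNth, Fin.succAbove_zero, Fin.partialProd_succ', Pi.smul_apply,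
      smul_eq_mul]
    rfl
  · refine Finset.sum_congr rfl fun j _ => ?_
    have : (fun i => ((Fin.contractNth j (· * ·) g i : ↥(N' ⊓ N0)) : G)) =
        Fin.contractNth j (· * ·) (fun i => (g i : G)) := by
      funext i
      unfold Fin.contractNth
      split_ifs <;> rfl
    simp only [this, Fin.partialProd_contractNth]
    rfl

end Pool.Agent.P.MP_e794d7_al
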