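import Pool.Agent.P.MP_e794d7_al.Retr

set_option autoImplicit false

namespace Pool.Agent.P.MP_e794d7_al

theorem good_glue {ι : Type} [Finite ι] (M : ι → ι → ℕ) (hsym : ∀ a b, M a b = M b a)
    (hd : ∀ a, M a a = 1) (ho : ∀ a b, a ≠ b → M a b ≠ 1) (S T : Set ι)
    (hc : ∀ a, a ∈ S ∨ a ∈ T) (hM : ∀ a b, M a b ≠ 0 → (a ∈ S ∧ b ∈ S) ∨ (a ∈ T ∧ b ∈ T))
    (hL : ∀ a ∈ S ∩ T, ∀ b ∈ S ∩ T, a ≠ b → M a b = 0 ∨ M a b = 2)
    (h₀ : Good (Art (Art.res M (S ∩ T)))) (h₁ : Good (Art (Art.res M S)))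
    (h₂ : Good (Art (Art.res M T))) : Good (Art M) := by
  have h := right_angled M hsym hd ho (S ∩ T) hL
  rw [← Art.inc_inc' (Set.inter_subset_left : S ∩ T ⊆ S)] at h
  exact (Art.isAmal S T hc hM).good h.1 h.2 h₀ h₁ h₂

theorem good_tri (n : ℕ) : ∀ (ι : Type) [Finite ι], Nat.card ι ≤ n → ∀ M : ι → ι → ℕ,
    (∀ a b, M a b = M b a) → (∀ a, M a a = 1) → (∀ a b, a ≠ b → M a b ≠ 1) →
    (∀ s t u, s ≠ t → t ≠ u → s ≠ u → M s t ≠ 0 → M t u ≠ 0 → M s u ≠ 0 → M s t = 2) →
    Good (Art M) := by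
  induction n with
  | zero =>
    intro ι _ hn M _ _ _ _
    haveI : IsEmpty ι := Finite.card_eq_zero_iff.mp (Nat.le_zero.mp hn)
    haveI : Subsingleton (Art M) := ⟨fun a b => by
      have : (⊥ : Subgroup (Art M)) = ⊤ := Art.eq_top fun a => isEmptyElim a
      have h : ∀ x : Art M, x = 1 := fun x => Subgroup.mem_bot.mp (this ▸ Subgroup.mem_top x)
      rw [h a, h b]⟩
    exact good_of_subsingleton
  | succ n ih =>
    intro ι _ hn M hsym hd ho ht
    have sub : ∀ (S : Set ι) (w : ι), w ∉ S → Good (Art (Art.res M S)) := fun S w hw => by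
      refine ih S ?_ _ (fun a b => hsym _ _) (fun a => hd _)
        (fun a b h => ho _ _ fun e => h (Subtype.ext e)) fun s t u h1 h2 h3 =>
          ht s t u (fun e => h1 (Subtype.ext e)) (fun e => h2 (Subtype.ext e))
            fun e => h3 (Subtype.ext e)
      have := Finite.card_subtype_lt (p := fun a => a ∈ S) hw
      exact Nat.le_of_lt_succ (lt_of_lt_of_le this hn)
    by_cases h0 : ∃ v w, M v w = 0
    · obtain ⟨v, w, hvw⟩ := h0
      refine good_glue M hsym hd ho {a | a ≠ v} {a | M v a ≠ 0} (fun a => ?_) (fun a b h => ?_)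
        (fun a ha b hb hab => ?_) (sub _ v fun h => h.1 rfl) (sub _ v fun h => h rfl)
        (sub _ w fun h => h hvw)
      · by_cases h : a = v
        · exact Or.inr (by simp [h, hd])
        · exact Or.inl h
      · by_cases ha : a = v
        · exact Or.inr ⟨by simp [ha, hd], by rwa [ha] at h⟩
        · by_cases hb : b = v
          · exact Or.inr ⟨by rwa [hb, hsym] at h, by simp [hb, hd]⟩
          · exact Or.inl ⟨ha, hb⟩
      · by_cases h : M a b = 0
        · exact Or.inl h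
        · exact Or.inr (ht a b v hab hb.1 ha.1 h (hsym v b ▸ hb.2) (hsym v a ▸ ha.2))
    push Not at h0
    by_cases h1 : ∃ s t, s ≠ t ∧ M s t ≠ 2
    · obtain ⟨s, t, hst, h⟩ := h1
      refine good_dihedral M s t hst (fun a => ?_) (hsym _ _) (h0 _ _)
      by_contra ha
      push Not at ha
      exact h (ht s t a hst ha.2.symm ha.1.symm (h0 _ _) (h0 _ _) (h0 _ _))
    push Not at h1
    rcases isEmpty_or_nonempty ι with h | ⟨⟨v⟩⟩
    · exact ih ι (by simp) M hsym hd ho ht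
    have := sub {a | a ≠ v} v fun h => h rfl
    exact (Art.isHNN v fun a ha => ⟨h1 _ _ ha, h1 _ _ ha.symm⟩).good Function.injective_id full_id
      this this

end Pool.Agent.P.MP_e794d7_al
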