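import Mathlib

set_option autoImplicit false

namespace Pool.Agent.P.MP_e794d7_al

open NumberField

/-- values of the Chebyshev recursion -/
def U {R : Type} [CommRing R] (c : R) : ℕ → R
  | 0 => 0
  | 1 => 1
  | n + 2 => c * U c (n + 1) - U c n

theorem map_U {R S : Type} [CommRing R] [CommRing S] (f : R →+* S) (c : R) :
    ∀ n, f (U c n) = U (f c) n
  | 0 => by simp [U]
  | 1 => by simp [U]
  | n + 2 => by simp [U, map_U f c (n + 1), map_U f c n]

theorem U_closed {R : Type} [CommRing R] {x y : R} (h : x * y = 1) :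
    ∀ n, (x - y) * U (x + y) n = x ^ n - y ^ n
  | 0 => by simp [U]
  | 1 => by simp [U]
  | n + 2 => by
    have h1 := U_closed h (n + 1)
    have h2 := U_closed h n
    rw [U]
    linear_combination (x + y) * h1 - h2 + (x ^ n - y ^ n) * h

theorem not_mem_four {K : Type} [Field K] [NumberField K] (x : 𝓞 K) (hx : x ≠ 0)
    (h : ∀ φ : K →+* ℂ, ‖φ x‖ < 4) : x ∉ Ideal.span {(4 : 𝓞 K)} := by
  intro hm
  obtain ⟨y, rfl⟩ := Ideal.mem_span_singleton'.mp hm
  have h1 : ∀ φ : K →+* ℂ, ‖φ y‖ < 1 := fun φ => by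
    have := h φ
    simp only [map_mul, norm_mul, map_ofNat, Complex.norm_ofNat] at this
    linarith
  have hy : (y : K) ≠ 0 := by
    intro h0
    apply hx
    rw [RingOfIntegers.coe_eq_zero_iff.mp h0, zero_mul]
  obtain ⟨n, hn, h2⟩ := Embeddings.pow_eq_one_of_norm_le_one K ℂ hy y.isIntegral_coe
    fun φ => (h1 φ).le
  let φ : K →+* ℂ := (IsAlgClosed.lift (R := ℚ) (M := ℂ) (S := K)).toRingHom
  have h3 : ‖φ y‖ ^ n = 1 := by rw [← norm_pow, ← map_pow, h2]; simp
  have := pow_lt_one₀ (norm_nonneg _) (h1 φ) hn.ne'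
  linarith

theorem norm_lt_four {x y : ℂ} (h : x * y = 1) (hx : ‖x‖ = 1) (hne : x ≠ -1) :
    ‖x + y - 2‖ < 4 := by
  have h0 : x ≠ 0 := by rintro rfl; simp at hx
  have h1 : y = (starRingEnd ℂ) x := by
    rw [← Complex.inv_eq_conj hx]
    exact eq_inv_of_mul_eq_one_right h
  have h2 : x + y - 2 = ((2 * x.re - 2 : ℝ) : ℂ) := by
    rw [h1, Complex.add_conj]; push_cast; ring
  have h3 : x.re * x.re + x.im * x.im = 1 := by
    rw [← Complex.normSq_apply, Complex.normSq_eq_norm_sq, hx]; norm_num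
  have h4 : x.re ≠ -1 := by
    intro h5
    apply hne
    apply Complex.ext
    · simpa using h5
    · rw [h5] at h3
      have : x.im * x.im = 0 := by linarith
      simpa using this
  have h5 : -1 ≤ x.re := by nlinarith [mul_self_nonneg x.im]
  have h6 : x.re ≤ 1 := by nlinarith [mul_self_nonneg x.im]
  rw [h2, Complex.norm_real, Real.norm_eq_abs, abs_lt]
  have := lt_of_le_of_ne h5 h4.symm
  constructor <;> linarith

theorem root_facts {K : Type} [Field K] [NumberField K] {m : ℕ} (hm : 2 ≤ m) {x : 𝓞 K}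
    (hx : IsPrimitiveRoot x (2 * m)) : ∃ c : 𝓞 K, U c m = 0 ∧ U c (m - 1) = 1 ∧
      ∀ k, 0 < k → k < m → 2 * U c (k + 1) - c * U c k - 2 ∉ Ideal.span {(4 : 𝓞 K)} := by
  obtain ⟨m, rfl⟩ : ∃ n, m = n + 1 := ⟨m - 1, by omega⟩
  have h1 : x ^ (m + 1) = -1 :=
    (hx.pow (by omega) (mul_comm _ _)).eq_neg_one_of_two_right
  obtain ⟨y, hy⟩ : ∃ y, x * y = 1 := ⟨-x ^ m, by rw [pow_succ] at h1; linear_combination -h1⟩
  have hk : ∀ k, x ^ k * y ^ k = 1 := fun k => by rw [← mul_pow, hy, one_pow]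
  have h2 : y ^ (m + 1) = -1 := by
    have := hk (m + 1)
    rw [h1] at this
    linear_combination -this
  have hpow : ∀ k, 0 < k → k < 2 * (m + 1) → x ^ k ≠ 1 := fun k h h' =>
    hx.pow_ne_one_of_pos_of_lt h.ne' h'
  have h3 : x - y ≠ 0 := by
    intro h
    apply hpow 2 (by omega) (by omega)
    linear_combination x * h + hy
  refine ⟨x + y, ?_, ?_, fun k h h' => ?_⟩
  · apply mul_left_cancel₀ h3
    rw [U_closed hy, h1, h2]; simp
  · apply mul_left_cancel₀ h3
    rw [U_closed hy, Nat.add_sub_cancel]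
    rw [pow_succ] at h1 h2
    linear_combination y * h1 - x * h2 - (x ^ m - y ^ m) * hy
  · have h4 : 2 * U (x + y) (k + 1) - (x + y) * U (x + y) k = x ^ k + y ^ k := by
      apply mul_left_cancel₀ h3
      linear_combination 2 * U_closed hy (k + 1) - (x + y) * U_closed hy k
    rw [h4]
    apply not_mem_four
    · intro h5
      apply hpow k h (by omega)
      have : (x ^ k - 1) ^ 2 = 0 := by linear_combination x ^ k * h5 - hk k
      exact sub_eq_zero.mp (pow_eq_zero_iff (two_ne_zero) |>.mp this)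
    · intro φ
      let ψ : 𝓞 K →+* ℂ := φ.comp (algebraMap (𝓞 K) K)
      have hψ : Function.Injective ψ := φ.injective.comp RingOfIntegers.coe_injective
      change ‖ψ (x ^ k + y ^ k - 2)‖ < 4
      rw [map_sub, map_add, map_ofNat]
      apply norm_lt_four
      · rw [← map_mul, hk, map_one]
      · rw [map_pow, norm_pow, (hx.map_of_injective hψ).norm'_eq_one (by omega), one_pow]
      · intro h5
        apply hpow (2 * k) (by omega) (by omega)
        apply hψ
        rw [mul_comm, pow_mul, map_pow, h5]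
        simp

theorem exists_ring (N : ℕ) : ∃ (R : Type) (_ : CommRing R), Finite R ∧ (4 : R) = 0 ∧
    (∀ y : R, 1 ≠ 2 * y) ∧ ∃ c : ℕ → R, c 0 = 2 ∧ c 1 = 2 ∧ ∀ m, 2 ≤ m → m ≤ N →
      U (c m) m = 0 ∧ U (c m) (m - 1) = 1 ∧
        ∀ k, 0 < k → k < m → 2 * U (c m) (k + 1) - c m * U (c m) k ≠ 2 := by
  have hn : 0 < 2 * N.factorial := by positivity
  haveI : NeZero (2 * N.factorial) := ⟨hn.ne'⟩
  let K := CyclotomicField (2 * N.factorial) ℚ
  haveI : IsCyclotomicExtension {2 * N.factorial} ℚ K :=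
    CyclotomicField.isCyclotomicExtension _ _
  have hζ := (IsCyclotomicExtension.zeta_spec (2 * N.factorial) ℚ K).toInteger_isPrimitiveRoot
  let I : Ideal (𝓞 K) := Ideal.span {4}
  have h1 : ∀ m, ∃ c : 𝓞 K, 2 ≤ m → m ≤ N → U c m = 0 ∧ U c (m - 1) = 1 ∧
      ∀ k, 0 < k → k < m → 2 * U c (k + 1) - c * U c k - 2 ∉ I := fun m => by
    by_cases h : 2 ≤ m ∧ m ≤ N
    · obtain ⟨d, hd⟩ := Nat.dvd_factorial (by omega : 0 < m) h.2
      obtain ⟨c, hc⟩ := root_facts h.1 (hζ.pow hn (a := d) (by rw [hd]; ring))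
      exact ⟨c, fun _ _ => hc⟩
    · exact ⟨0, fun a b => (h ⟨a, b⟩).elim⟩
  choose c hc using h1
  have h4 : (4 : 𝓞 K ⧸ I) = 0 := by
    rw [← map_ofNat (Ideal.Quotient.mk I) 4, Ideal.Quotient.eq_zero_iff_mem]
    exact Ideal.mem_span_singleton_self _
  refine ⟨𝓞 K ⧸ I, inferInstance, Ideal.finiteQuotientOfFreeOfNeBot _ (by simp [I]), h4,
    fun y hy => ?_, fun m => if m < 2 then 2 else Ideal.Quotient.mk I (c m), by simp, by simp,
    fun m h h' => ?_⟩
  · apply not_mem_four (2 : 𝓞 K) two_ne_zero (fun φ => by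
      change ‖(φ.comp (algebraMap (𝓞 K) K)) 2‖ < 4
      rw [map_ofNat]; norm_num)
    rw [← Ideal.Quotient.eq_zero_iff_mem, map_ofNat]
    linear_combination 2 * hy + y * h4
  · obtain ⟨a1, a2, a3⟩ := hc m h h'
    simp only [if_neg (not_lt.mpr h), ← map_U]
    refine ⟨by rw [a1, map_zero], by rw [a2, map_one], fun k hk hk' he => a3 k hk hk' ?_⟩
    rw [← Ideal.Quotient.eq_zero_iff_mem, map_sub, map_sub, map_mul, map_mul, map_ofNat, he,
      sub_self]

end Pool.Agent.P.MP_e794d7_al
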