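import Pool.Agent.P.MP_e794d7_al.Art
import Pool.Agent.P.MP_e794d7_al.Ring

set_option autoImplicit false

namespace Pool.Agent.P.MP_e794d7_al

open scoped RegularWreathProduct

section Rank2

variable {R Λ : Type} [CommRing R] [AddCommGroup Λ] [Module R Λ]

/-- two reflections -/
structure Rk2 (B : Λ →ₗ[R] Λ →ₗ[R] R) (c : R) (a b : Λ) (s t : Λ ≃ₗ[R] Λ) : Prop where
  aa : B a a = 2
  bb : B b b = 2
  ab : B a b = -c
  ba : B b a = -c
  hs : ∀ x, s x = x - B a x • a
  ht : ∀ x, t x = x - B b x • b

variable {B : Λ →ₗ[R] Λ →ₗ[R] R} {c : R} {a b : Λ} {s t : Λ ≃ₗ[R] Λ}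

theorem Rk2.symm (h : Rk2 B c a b s t) : Rk2 B c b a t s :=
  ⟨h.bb, h.aa, h.ba, h.ab, h.ht, h.hs⟩

theorem Rk2.root (j : ℕ) : ∀ {a b : Λ} {s t : Λ ≃ₗ[R] Λ}, Rk2 B c a b s t →
    alt s t j (if Even j then a else b) = U c (j + 1) • a + U c j • b := by
  induction j with
  | zero => intro a b s t h; simp [alt_zero, U]
  | succ j ih =>
    intro a b s t h
    have e : (if Even (j + 1) then a else b) = if Even j then b else a := by
      by_cases hj : Even j <;> simp [Nat.even_add_one, hj]
    rw [alt_succ', LinearEquiv.mul_apply, e, ih h.symm, h.hs, U]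
    simp only [map_add, map_smul, h.aa, h.ab, smul_eq_mul]
    module

theorem Rk2.tele (h : Rk2 B c a b s t) (x : Λ) (j : ℕ) :
    alt s t j x = x -
      (∑ i ∈ Finset.range j, (if Even i then B a x else B b x) * U c (i + 1)) • a -
      (∑ i ∈ Finset.range j, (if Even i then B a x else B b x) * U c i) • b := by
  induction j with
  | zero => simp [alt_zero]
  | succ j ih =>
    have e : (if Even j then s else t) x =
        x - (if Even j then B a x else B b x) • (if Even j then a else b) := by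
      split_ifs
      · exact h.hs x
      · exact h.ht x
    rw [alt_succ, LinearEquiv.mul_apply, e, map_sub, map_smul, h.root, ih, Finset.sum_range_succ,
      Finset.sum_range_succ]
    module

theorem Rk2.braid (h : Rk2 B c a b s t) {m : ℕ} (hm : U c m = 0) : alt s t m = alt t s m := by
  rcases m with _ | m
  · rfl
  have key : ∀ p q : R, ∑ i ∈ Finset.range (m + 1), (if Even i then p else q) * U c (i + 1) =
      ∑ i ∈ Finset.range (m + 1), (if Even i then q else p) * U c i := fun p q => by
    rw [Finset.sum_range_succ, Finset.sum_range_succ', hm]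
    simp only [U, mul_zero, add_zero]
    refine Finset.sum_congr rfl fun i _ => ?_
    by_cases hi : Even i <;> simp [Nat.even_add_one, hi]
  ext x
  rw [h.tele, h.symm.tele, key, key]
  abel

theorem Rk2.pair (h : Rk2 B c a b s t) (k i : ℕ) :
    B (U c (i + 1) • a + U c i • b) (U c (i + k + 1) • a + U c (i + k) • b) =
      2 * U c (k + 1) - c * U c k := by
  simp only [map_add, map_smul, LinearMap.add_apply, LinearMap.smul_apply, h.aa, h.bb, h.ab, h.ba,
    smul_eq_mul]
  induction i with
  | zero => simp [U]; ring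
  | succ i ih =>
    rw [← ih, show i + 1 + k = i + k + 1 by ring, U, U]
    ring

theorem U_symm {m : ℕ} (h0 : U c m = 0) (h1 : U c (m - 1) = 1) :
    ∀ j i, i + j = m → U c i = U c j
  | 0, i, h => by rw [show i = m from h, h0]; rfl
  | 1, i, h => by rw [show i = m - 1 by omega, h1]; rfl
  | j + 2, i, h => by
    have e1 := U_symm h0 h1 j (i + 2) (by omega)
    have e2 := U_symm h0 h1 (j + 1) (i + 1) (by omega)
    rw [U] at e1
    rw [U, ← e2, ← e1]
    ring

end Rank2

theorem prod_rev {G : Type} [Monoid G] (F F' : ℕ → G) (m : ℕ)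
    (h : ∀ i, i < m → F' i = F (m - 1 - i))
    (hc : ∀ i j, i < j → j < m → Commute (F i) (F j)) :
    ((List.range m).map F).prod = ((List.range m).map F').prod := by
  have e : (List.range m).map F' = ((List.range m).map F).reverse := by
    apply List.ext_getElem
    · simp
    · intro i h1 h2
      simp at h1
      simp [h i h1]
  rw [e]
  refine List.Perm.prod_eq' (List.reverse_perm _).symm ?_
  rw [List.pairwise_map]
  exact List.pairwise_lt_range.imp_of_mem fun _ hj hij => hc _ _ hij (List.mem_range.mp hj)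

theorem alt_left {D Γ : Type} [Group D] [Group Γ] (S T : D ≀ᵣ Γ) (j : ℕ) (x : Γ) :
    (alt S T j).left x = ((List.range j).map fun i =>
      (if Even i then S else T).left ((alt S.right T.right i)⁻¹ * x)).prod := by
  induction j with
  | zero => rfl
  | succ j ih =>
    have : (alt S T j).right = alt S.right T.right j :=
      map_alt RegularWreathProduct.rightHom S T j
    rw [alt_succ, List.range_succ, List.map_append, List.prod_append, ← ih,
      RegularWreathProduct.mul_left]
    simp [this]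

theorem full_of_wreath {H G Γ : Type} [Group H] [Group G] [Group Γ] [Finite Γ] (φ : H →* G)
    (Φ : G →* H ≀ᵣ Γ) (h : ∀ a, (Φ (φ a)).left 1 = a) : Function.Injective φ ∧ Full φ := by
  refine ⟨fun a b hab => by rw [← h a, hab, h b], fun K hK => ?_⟩
  let N := (RegularWreathProduct.rightHom.comp Φ).ker
  let r : N →* H :=
    { toFun := fun g => (Φ g).left 1
      map_one' := by simp
      map_mul' := fun g g' => by
        have : (Φ g).right = 1 := g.2
        simp [this] }
  refine ⟨(K.comap r).map N.subtype, ⟨?_⟩, ?_⟩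
  · rw [Subgroup.index_map_subtype]
    exact mul_ne_zero (fi_comap r K).1 Subgroup.FiniteIndex.index_ne_zero
  · rintro a ⟨g, hg, e⟩
    have h1 : (Φ g).left 1 ∈ K := hg
    rwa [show (g : G) = φ a from e, h] at h1

theorem right_angled {ι : Type} [Finite ι] (M : ι → ι → ℕ) (hsym : ∀ a b, M a b = M b a)
    (hd : ∀ a, M a a = 1) (ho : ∀ a b, a ≠ b → M a b ≠ 1) (L : Set ι)
    (hL : ∀ a ∈ L, ∀ b ∈ L, a ≠ b → M a b = 0 ∨ M a b = 2) :
    Function.Injective (Art.inc M L) ∧ Full (Art.inc M L) := by
  classical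
  haveI := Fintype.ofFinite ι
  obtain ⟨R, _, hfin, h4, h12, c, c0, c1, hc⟩ :=
    exists_ring (Finset.univ.sup fun p : ι × ι => M p.1 p.2)
  replace hc := fun a b (h : 2 ≤ M a b) => hc (M a b) h
    (Finset.le_sup (f := fun p : ι × ι => M p.1 p.2) (Finset.mem_univ (a, b)))
  let B : (ι → R) →ₗ[R] (ι → R) →ₗ[R] R := Matrix.toBilin' (Matrix.of fun a b => -c (M a b))
  let α : ι → ι → R := fun a => Pi.single a 1
  have hα : ∀ a b, B (α a) (α b) = -c (M a b) := fun a b => Matrix.toBilin'_single _ a b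
  have hB : ∀ x y, B x y = B y x := fun x y => by
    simp only [B, Matrix.toBilin'_apply, Matrix.of_apply]
    rw [Finset.sum_comm]
    refine Finset.sum_congr rfl fun a _ => Finset.sum_congr rfl fun b _ => ?_
    rw [hsym]; ring
  have haa : ∀ a, B (α a) (α a) = 2 := fun a => by
    rw [hα, hd, c1]; linear_combination -h4
  let Γ : Subgroup ((ι → R) ≃ₗ[R] (ι → R)) :=
    { carrier := {w | ∀ x y, B (w x) (w y) = B x y}
      mul_mem' := fun {w w'} h h' x y => by
        rw [LinearEquiv.mul_apply, LinearEquiv.mul_apply, h, h']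
      one_mem' := fun x y => rfl
      inv_mem' := fun {w} h x y => by
        rw [← h]
        congr 2 <;> exact w.apply_symm_apply _ }
  haveI : Finite ((ι → R) ≃ₗ[R] (ι → R)) :=
    Finite.of_injective (fun f => (f : (ι → R) → ι → R)) DFunLike.coe_injective
  let σ : ι → Γ := fun a => ⟨Module.reflection (haa a), fun x y => by
    simp only [Module.reflection_apply, map_sub, map_smul, LinearMap.sub_apply,
      LinearMap.smul_apply, smul_eq_mul, haa, hB x (α a)]
    ring⟩
  have hσ : ∀ a x, (σ a).1 x = x - B (α a) x • α a := fun a x =>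
    Module.reflection_apply x (haa a)
  have rk : ∀ a b, Rk2 B (c (M a b)) (α a) (α b) (σ a) (σ b) := fun a b =>
    ⟨haa a, haa b, hα a b, by rw [hα, hsym], hσ a, hσ b⟩
  let E : L → (ι → R) → Prop := fun u y =>
    ∃ z, (∀ u' : L, 2 * B (α u') z = 0) ∧ y = α u + (2 : R) • z
  have hδ : ∀ u u' : L, ∃ δ : R, B (α u) (α u') = 2 * δ := fun u u' => by
    by_cases h : (u : ι) = u'
    · exact ⟨1, by rw [h, haa, mul_one]⟩
    · rcases hL u u.2 u' u'.2 h with h1 | h1
      · exact ⟨-1, by rw [hα, h1, c0]; ring⟩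
      · have := (hc u u' h1.ge).1
        rw [h1] at this
        simp only [U, mul_one, sub_zero] at this
        exact ⟨0, by rw [hα, h1, this]; ring⟩
  have h2 : ∀ u u' : L, 2 * B (α u) (α u') = 0 := fun u u' => by
    obtain ⟨δ, h⟩ := hδ u u'
    rw [h]; linear_combination δ * h4
  have Eα : ∀ u, E u (α u) := fun u => ⟨0, by simp, by simp⟩
  have Epair : ∀ u u' y y', E u y → E u' y' → B y y' = -c (M u u') := by
    rintro u u' _ _ ⟨z, hz, rfl⟩ ⟨z', hz', rfl⟩
    simp only [map_add, map_smul, LinearMap.add_apply, LinearMap.smul_apply, smul_eq_mul, hα,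
      hB z (α u')]
    linear_combination hz u' + hz' u + B z z' * h4
  have Euniq : ∀ u u' y, E u y → E u' y → u = u' := by
    rintro u u' _ ⟨z, -, rfl⟩ ⟨z', -, h⟩
    by_contra hne
    have hne' : (u : ι) ≠ u' := fun h => hne (Subtype.ext h)
    have := congrFun h u
    simp [α, hne'] at this
    exact h12 (z' u - z u) (by linear_combination this)
  have Erefl : ∀ (u u' : L) y, E u y → E u ((σ u').1 y) := by
    rintro u u' _ ⟨z, hz, rfl⟩
    obtain ⟨δ, h⟩ := hδ u' u
    refine ⟨z - δ • α u', fun w => ?_, ?_⟩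
    · rw [map_sub, map_smul, smul_eq_mul]
      linear_combination hz w - δ * h2 w u'
    · rw [hσ, map_add, map_smul, smul_eq_mul, hz, h]
      module
  let ℓ : (ι → R) → Art (Art.res M L) := fun y =>
    if h : ∃ u, E u y then Art.gen _ h.choose else 1
  have ℓ1 : ∀ u y, E u y → ℓ y = Art.gen _ u := fun u y h => by
    have h' : ∃ u, E u y := ⟨u, h⟩
    simp only [ℓ, dif_pos h']
    rw [Euniq _ _ _ h'.choose_spec h]
  have ℓ0 : ∀ y, (¬ ∃ u, E u y) → ℓ y = 1 := fun y h => dif_neg h
  have ℓrefl : ∀ (u' : L) y, ℓ ((σ u').1 y) = ℓ y := fun u' y => by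
    by_cases h : ∃ u, E u y
    · obtain ⟨u, h⟩ := h
      rw [ℓ1 u _ h, ℓ1 u _ (Erefl u u' y h)]
    · rw [ℓ0 _ h, ℓ0]
      rintro ⟨u, hu⟩
      have := Erefl u u' _ hu
      rw [show (σ u').1 ((σ u').1 y) = y from Module.involutive_reflection (haa u') y] at this
      exact h ⟨u, this⟩
  have ℓcomm : ∀ y y', B y y' ≠ 2 → Commute (ℓ y) (ℓ y') := fun y y' h => by
    by_cases h1 : ∃ u, E u y
    swap
    · rw [ℓ0 _ h1]; exact Commute.one_left _
    by_cases h1' : ∃ u, E u y'
    swap
    · rw [ℓ0 _ h1']; exact Commute.one_right _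
    obtain ⟨u, h1⟩ := h1
    obtain ⟨u', h1'⟩ := h1'
    rw [ℓ1 u _ h1, ℓ1 u' _ h1']
    by_cases hu : (u : ι) = u'
    · rw [Subtype.ext hu]
    · rcases hL u u.2 u' u'.2 hu with h3 | h3
      · refine (h ?_).elim
        rw [Epair _ _ _ _ h1 h1', h3, c0]
        linear_combination -h4
      · have := Art.rel (M := Art.res M L) u u'
        rwa [show Art.res M L u u' = 2 from h3, alt_two, alt_two] at this
  let S : ι → Art (Art.res M L) ≀ᵣ Γ := fun a => ⟨fun x => ℓ ((x⁻¹).1 (α a)), σ a⟩
  have hleft : ∀ a b j (x : Γ), (alt (S a) (S b) j).left x = ((List.range j).map fun i =>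
      ℓ ((x⁻¹).1 (U (c (M a b)) (i + 1) • α a + U (c (M a b)) i • α b))).prod := by
    intro a b j x
    rw [alt_left]
    congr 2
    funext i
    have e : (alt (σ a) (σ b) i).1 = alt (σ a).1 (σ b).1 i := map_alt Γ.subtype _ _ _
    rw [← (rk a b).root, ← e]
    split_ifs <;> simp [S]
  have hrel : ∀ a b, alt (S a) (S b) (M a b) = alt (S b) (S a) (M a b) := fun a b => by
    by_cases hab : a = b
    · rw [hab]
    by_cases h0 : M a b = 0
    · rw [h0]; rfl
    obtain ⟨u0, u1, u2⟩ := hc a b (by have := ho a b hab; omega)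
    ext x
    · rw [hleft, hleft, hsym b a]
      refine prod_rev _ _ _ (fun i hi => ?_) fun i j hij hj => ?_
      · rw [U_symm u0 u1 i (M a b - 1 - i + 1) (by omega),
          U_symm u0 u1 (i + 1) (M a b - 1 - i) (by omega), add_comm]
      · obtain ⟨k, rfl⟩ := Nat.exists_eq_add_of_le hij.le
        apply ℓcomm
        rw [(x⁻¹).2, (rk a b).pair]
        exact u2 k (by omega) (by omega)
    · have e1 := map_alt (Γ.subtype.comp RegularWreathProduct.rightHom) (S a) (S b) (M a b)
      have e2 := map_alt (Γ.subtype.comp RegularWreathProduct.rightHom) (S b) (S a) (M a b)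
      have e3 : ((alt (S a) (S b) (M a b)).right).1 = ((alt (S b) (S a) (M a b)).right).1 :=
        e1.trans (((rk a b).braid u0).trans e2.symm)
      rw [e3]
  let Φ := Art.lift S hrel
  let Γ0 : Subgroup Γ :=
    { carrier := {w | ∀ y, ℓ (w.1 y) = ℓ y}
      mul_mem' := fun {w w'} h h' y => (h _).trans (h' y)
      one_mem' := fun y => rfl
      inv_mem' := fun {w} h y => by
        rw [← h]
        exact congrArg ℓ (w.1.apply_symm_apply y) }
  let P : Subgroup (Art (Art.res M L)) :=
    { carrier := {g | (Φ (Art.inc M L g)).right ∈ Γ0 ∧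
        ∀ x ∈ Γ0, (Φ (Art.inc M L g)).left x = g}
      mul_mem' := fun {g g'} h h' => by
        refine ⟨by simpa using Γ0.mul_mem h.1 h'.1, fun x hx => ?_⟩
        simp [h.2 x hx, h'.2 _ (Γ0.mul_mem (Γ0.inv_mem h.1) hx)]
      one_mem' := ⟨by simpa using Γ0.one_mem, by simp⟩
      inv_mem' := fun {g} h => by
        refine ⟨by simpa using Γ0.inv_mem h.1, fun x hx => ?_⟩
        simp [h.2 _ (Γ0.mul_mem h.1 hx)] }
  have hP : P = ⊤ := Art.eq_top fun u => by
    have e : Φ (Art.inc M L (Art.gen _ u)) = S u := by simp [Φ, Art.inc]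
    refine ⟨by rw [e]; exact ℓrefl u, fun x hx => ?_⟩
    rw [e]
    exact (Γ0.inv_mem hx _).trans (ℓ1 u _ (Eα u))
  refine full_of_wreath _ Φ fun g => ?_
  have : g ∈ P := hP ▸ Subgroup.mem_top g
  exact this.2 1 Γ0.one_mem

end Pool.Agent.P.MP_e794d7_al
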