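import Pool.Agent.P.MP_e794d7_al.Coh

set_option autoImplicit false

namespace Pool.Agent.P.MP_e794d7_al

open MulAction

theorem equiv_choice {G Y C : Type} [Group G] [MulAction G Y] (act : G → C → C)
    (act_one : ∀ c, act 1 c = c) (act_mul : ∀ g h c, act (g * h) c = act g (act h c))
    (N : Subgroup G) (P : Y → C → Prop) (hP : ∀ g ∈ N, ∀ y c, P y c → P (g • y) (act g c))
    (hex : ∀ y, ∃ c, P y c ∧ ∀ g ∈ N, g • y = y → act g c = c) :
    ∃ f : Y → C, (∀ y, P y (f y)) ∧ ∀ g ∈ N, ∀ y, f (g • y) = act g (f y) := by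
  let rep : Y → Y := fun y => (Quotient.mk (orbitRel N Y) y).out
  have h1 : ∀ y, ∃ n ∈ N, n • rep y = y := fun y => by
    obtain ⟨n, hn⟩ : rep y ∈ orbit N y := Quotient.mk_out (s := orbitRel N Y) y
    exact ⟨(n : G)⁻¹, N.inv_mem n.2, by rw [← hn]; exact inv_smul_smul (n : G) y⟩
  have h2 : ∀ g ∈ N, ∀ y, rep (g • y) = rep y := fun g hg y => by
    have : Quotient.mk (orbitRel N Y) (g • y) = Quotient.mk (orbitRel N Y) y :=
      Quotient.sound ⟨⟨g, hg⟩, rfl⟩
    simp only [rep, this]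
  choose n hn hn' using h1
  choose c hc hc' using hex
  refine ⟨fun y => act (n y) (c (rep y)), fun y => ?_, fun g hg y => ?_⟩
  · have := hP _ (hn y) _ _ (hc (rep y))
    rwa [hn'] at this
  · have h3 := hn' (g • y)
    rw [h2 g hg] at h3
    have := hc' (rep y) ((n (g • y))⁻¹ * (g * n y))
      (N.mul_mem (N.inv_mem (hn _)) (N.mul_mem hg (hn y))) (by
        rw [mul_smul, mul_smul, hn', inv_smul_eq_iff, h3])
    beta_reduce
    rw [h2 g hg, ← act_mul]
    conv_lhs => rw [← this, ← act_mul, mul_inv_cancel_left]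

section

variable {G X M : Type} [Group G] [MulAction G X] [AddCommGroup M]

theorem fam {Y : Type} [MulAction G Y] (hfin : Finite (orbitRel.Quotient G Y))
    (hst : ∀ y : Y, RGood G (stabilizer G y)) (hX : Free G X) (hne : Nonempty X) (hM : Finite M)
    {n : ℕ} (N : Subgroup G) [N.FiniteIndex] (z : Y → (Fin (n + 2) → X) → M)
    (hz : ∀ y, D (z y) = 0) (hinv : ∀ g ∈ N, ∀ y x, z (g • y) (g • x) = z y x) :
    ∃ N' : Subgroup G, N'.FiniteIndex ∧ N' ≤ N ∧ ∃ c : Y → (Fin (n + 1) → X) → M,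
      (∀ y, D (c y) = z y) ∧ ∀ g ∈ N', ∀ y x, c (g • y) (g • x) = c y x := by
  let T := (G ⧸ N.normalCore) × orbitRel.Quotient G Y
  let r : T → Y := fun t => t.1.out • t.2.out
  have h1 : ∀ y, ∃ t, ∃ m ∈ N, y = m • r t := fun y => by
    obtain ⟨g, hg⟩ : y ∈ orbit G (Quotient.mk (orbitRel G Y) y).out :=
      (orbitRel G Y).symm (Quotient.mk_out (s := orbitRel G Y) y)
    obtain ⟨h, hh⟩ := QuotientGroup.mk_out_eq_mul N.normalCore g
    refine ⟨(QuotientGroup.mk g, Quotient.mk _ y), g * (h : G)⁻¹ * g⁻¹,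
      (N.normalCore.inv_mem h.2) g, ?_⟩
    simp only [r, hh, smul_smul]
    rw [show g * (h : G)⁻¹ * g⁻¹ * (g * h) = g by group]
    exact hg.symm
  have h2 := fun t : T => hst (r t) X hX hne M hM n N inferInstance (z (r t)) (hz _)
    fun g hg hg' x => by
      have := hinv g hg' (r t) x
      rwa [mem_stabilizer_iff.mp hg] at this
  choose N' hN' c hc hc' using h2
  let N1 := (N ⊓ ⨅ t, N' t).normalCore
  haveI : (⨅ t, N' t).FiniteIndex := Subgroup.finiteIndex_iInf hN'
  have hle : N1 ≤ N := fun g hg => (Subgroup.normalCore_le _ hg).1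
  obtain ⟨f, hf, hf'⟩ := equiv_choice (G := G) (Y := Y)
    (fun g (c : (Fin (n + 1) → X) → M) x => c (g⁻¹ • x)) (by simp)
    (fun g h c => by funext x; rw [mul_inv_rev, mul_smul]) N1 (fun y c => D c = z y)
    (fun g hg y c h => by
      funext x
      rw [D_smul, h, ← hinv g (hle hg), smul_inv_smul]) (fun y => by
      obtain ⟨t, m, hm, rfl⟩ := h1 y
      refine ⟨fun x => c t (m⁻¹ • x), ?_, fun g hg h => ?_⟩
      · funext x
        rw [D_smul, hc, ← hinv m hm, smul_inv_smul]
      · funext x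
        have h3 : m⁻¹ * g⁻¹ * m ∈ N' t := by
          have := (N1.inv_mem hg) m⁻¹
          rw [inv_inv] at this
          exact Subgroup.mem_iInf.mp this.2 t
        have h4 : m⁻¹ * g⁻¹ * m ∈ stabilizer G (r t) := by
          rw [mem_stabilizer_iff, mul_smul, mul_smul, inv_smul_eq_iff, inv_smul_eq_iff, h]
        have := hc' t _ h4 h3 (m⁻¹ • x)
        rwa [smul_smul, mul_inv_cancel_right, mul_smul] at this)
  refine ⟨N1, inferInstance, hle, f, hf, fun g hg y x => ?_⟩
  rw [hf' g hg]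
  simp only [inv_smul_smul]

theorem deg_one (hne : Nonempty X) (hM : Finite M) (N : Subgroup G) [N.FiniteIndex]
    (z : (Fin 2 → X) → M) (hz : D z = 0) (hinv : ∀ g ∈ N, ∀ x, z (g • x) = z x) :
    ∃ N' : Subgroup G, N'.FiniteIndex ∧ ∃ c : (Fin 1 → X) → M,
      D c = z ∧ ∀ g ∈ N', ∀ x, c (g • x) = c x := by
  obtain ⟨a⟩ := hne
  let c : (Fin 1 → X) → M := fun w => z (Fin.cons a w)
  have hc : D c = z := exact_D z hz a
  have h1 : ∀ u v : Fin 1 → X, z (Fin.cons (u 0) v) = c v - c u := fun u v => by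
    rw [← hc, D_cons]
    congr 1
    have : ∀ w : Fin 0 → X, (Fin.cons (u 0) w : Fin 1 → X) = u := fun w => by
      funext i
      exact Fin.cases rfl (fun i => i.elim0) i
    simp [D, this]
  have h2 : ∀ g ∈ N, ∀ u v : Fin 1 → X, c (g • v) - c (g • u) = c v - c u := fun g hg u v => by
    rw [← h1, ← h1, ← hinv g hg (Fin.cons (u 0) v)]
    congr 1
    funext i
    refine Fin.cases rfl (fun i => rfl) i
  let u : Fin 1 → X := fun _ => a
  let φ : N →* Multiplicative M :=
    { toFun := fun g => Multiplicative.ofAdd (c ((g : G) • u) - c u)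
      map_one' := by simp
      map_mul' := fun g h => by
        rw [← ofAdd_add, ← h2 g g.2 u ((h : G) • u), Subgroup.coe_mul, mul_smul]
        congr 1
        abel }
  refine ⟨φ.ker.map N.subtype, ⟨?_⟩, c, hc, ?_⟩
  · rw [Subgroup.index_map_subtype]
    exact mul_ne_zero (Subgroup.finiteIndex_ker φ).1 Subgroup.FiniteIndex.index_ne_zero
  · rintro _ ⟨g, hg, rfl⟩ x
    have h3 : c ((g : G) • u) - c u = 0 := MonoidHom.mem_ker.mp hg
    have h4 := h2 g g.2 u x
    rw [sub_eq_zero.mp h3] at h4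
    exact sub_left_injective h4

end

theorem good_of_tree {G V E : Type} [Group G] [MulAction G V] [MulAction G E] (o t : E → V)
    (ho : ∀ (g : G) e, o (g • e) = g • o e) (ht : ∀ (g : G) e, t (g • e) = g • t e)
    (hV : Finite (orbitRel.Quotient G V)) (hE : Finite (orbitRel.Quotient G E))
    (sV : ∀ v : V, RGood G (stabilizer G v)) (sE : ∀ e : E, RGood G (stabilizer G e))
    (v0 : V)
    (conn : ∀ (M : Type) (a : V → M), (∀ e, a (t e) = a (o e)) → ∀ v, a v = a v0)
    (forest : ∀ (M : Type) [AddCommGroup M] (b : E → M),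
      ∃ a : V → M, ∀ e, a (t e) - a (o e) = b e) : Good G := by
  intro X _ hX hne M _ hM n N hN z hz hinv
  rcases n with _ | n
  · obtain ⟨N', h1, c, h2, h3⟩ := deg_one hne hM N z hz fun g hg => hinv g trivial hg
    exact ⟨N', h1, c, h2, fun g _ hg => h3 g hg⟩
  obtain ⟨N1, hN1, -, c, hc, hc'⟩ := fam hV sV hX hne hM N (fun _ => z) (fun _ => hz)
    fun g hg _ x => hinv g trivial hg x
  obtain ⟨N2, hN2, hle, d, hd, hd'⟩ := fam hE sE hX hne hM N1 (fun e => c (t e) - c (o e))
    (fun e => by rw [D_sub, hc, hc, sub_self]) fun g hg e x => by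
      simp only [Pi.sub_apply, ho, ht, hc' g hg]
  obtain ⟨a, ha, ha'⟩ := equiv_choice (G := G) (Y := Fin (n + 1) → X)
    (fun g (a : V → M) v => a (g⁻¹ • v)) (by simp)
    (fun g h c => by funext x; rw [mul_inv_rev, mul_smul]) N2
    (fun x a => ∀ e, a (t e) - a (o e) = d e x)
    (fun g hg x a h e => by
      beta_reduce
      rw [← ht, ← ho, h, ← hd' g hg, smul_inv_smul]) (fun x => by
      obtain ⟨a, ha⟩ := forest M fun e => d e x
      refine ⟨a, ha, fun g _ h => ?_⟩
      rw [hX g (x 0) (congrFun h 0)]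
      simp)
  let c' : V → (Fin (n + 2) → X) → M := fun v => c v - D fun x => a x v
  have h1 : ∀ v, c' v = c' v0 := conn _ c' fun e => by
    have : (fun x => a x (t e)) - (fun x => a x (o e)) = d e := funext fun x => ha x e
    have h2 := hd e
    rw [← this, D_sub] at h2
    simp only [c']
    rw [sub_eq_sub_iff_sub_eq_sub, h2]
  refine ⟨N2, hN2, c' v0, ?_, fun g _ hg x => ?_⟩
  · simp only [c']
    rw [D_sub, DD, hc, sub_zero]
  · conv_lhs => rw [← h1 (g • v0)]
    simp only [c', Pi.sub_apply]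
    rw [hc' g (hle hg), ← D_smul]
    congr 2
    funext y
    rw [ha' g hg]
    simp only [inv_smul_smul]

end Pool.Agent.P.MP_e794d7_al
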